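import Pool.Agent.L0h38.MON.Stm

/-!
The generation problem in finitely presented groups all of whose proper subgroups are cyclic.
-/

set_option autoImplicit false
set_option linter.all false

namespace Pool.Agent.L0h91.MON

open Pool.Agent.Q223.IS Pool.Agent.L0h38.MON

theorem value_ev {G : Type} [Group G] (f : ℕ → G) (w : List (ℕ × Bool)) :
    value f w = ev f w := by
  unfold value ev
  rw [FreeGroup.lift_mk]
  congr 1
  refine List.map_congr_left fun q _ => ?_
  cases q.2 <;> rfl

theorem words {b : ℕ × List Wd} {G : Type} [Group G] (e : PG b ≃* G) (f : ℕ → G)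
    (hf : FinSupp f) : ∃ U : List Wd, ∀ i, e (ev (gen b) (U.getD i [])) = f i := by
  obtain ⟨n, hn⟩ := hf
  choose u hu using fun i => gen_word b (e.symm (f i))
  refine ⟨(List.range n).map u, fun i => ?_⟩
  rcases Nat.lt_or_ge i n with h | h
  · rw [List.getD_eq_getElem _ _ (by simpa using h)]
    simp [hu]
  · rw [List.getD_eq_default _ _ (by simpa using h), ev_nil, map_one, hn i h]

theorem value_eq {b : ℕ × List Wd} {G : Type} [Group G] (e : PG b ≃* G) (f : ℕ → G)
    {U : List Wd} (hU : ∀ i, e (ev (gen b) (U.getD i [])) = f i) (w : Wd) :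
    value f w = e (ev (gen b) (sub U w)) := by
  rw [value_ev, ev_sub]
  have := ev_map (fun i => ev (gen b) (U.getD i [])) e.toMonoidHom w
  refine Eq.trans ?_ this.symm
  congr 1
  funext i
  exact (hU i).symm

/-- The subgroup generated by the values of the words. -/
def Clo (b : ℕ × List Wd) (M : List Wd) : Subgroup (PG b) :=
  Subgroup.closure {g | ∃ m ∈ M, g = ev (gen b) m}

theorem mem_iff (b : ℕ × List Wd) (M : List Wd) (w : Wd) :
    ev (gen b) w ∈ Clo b M ↔ ∃ (v : Wd) (c : Ct), Chk b (sub M v ++ FreeGroup.invRev w) c := by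
  have h1 : ∀ v : Wd, (∃ c : Ct, Chk b (sub M v ++ FreeGroup.invRev w) c) ↔
      ev (fun i => ev (gen b) (M.getD i [])) v = ev (gen b) w := by
    intro v
    rw [← triv_iff, ev_append, ev_inv, ev_sub, mul_inv_eq_one]
  simp only [h1]
  constructor
  · intro h
    have h2 : Clo b M ≤ (FreeGroup.lift (fun i => ev (gen b) (M.getD i []))).range := by
      refine (Subgroup.closure_le _).2 ?_
      rintro g ⟨m, hm, rfl⟩
      obtain ⟨i, hi, rfl⟩ := List.getElem_of_mem hm
      refine ⟨FreeGroup.of i, ?_⟩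
      rw [FreeGroup.lift_apply_of, List.getD_eq_getElem _ _ hi]
    obtain ⟨y, hy⟩ := h2 h
    refine ⟨y.toWord, ?_⟩
    rw [← hy]
    unfold ev
    rw [FreeGroup.mk_toWord]
  · rintro ⟨v, hv⟩
    rw [← hv]
    have h3 : ∀ i, ev (gen b) (M.getD i []) ∈ Clo b M := by
      intro i
      rcases Nat.lt_or_ge i M.length with h | h
      · rw [List.getD_eq_getElem _ _ h]
        exact Subgroup.subset_closure ⟨_, List.getElem_mem h, rfl⟩
      · rw [List.getD_eq_default _ _ h, ev_nil]
        exact one_mem _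
    clear hv
    induction v with
    | nil => rw [ev_nil]; exact one_mem _
    | cons q v ih =>
      rw [ev_cons]
      refine mul_mem ?_ ih
      obtain ⟨i, s⟩ := q
      cases s
      · rw [ev_false]
        exact inv_mem (h3 i)
      · rw [ev_true]
        exact h3 i

/-- Certificates for the membership of several elements. -/
def AM (b : ℕ × List Wd) (M W : List Wd) (D : List (Wd × Wd × Ct)) : Prop :=
  (∀ t ∈ D, Chk b (sub M t.2.1 ++ FreeGroup.invRev t.1) t.2.2) ∧ ∀ w ∈ W, ∃ t ∈ D, t.1 = w

theorem AM_iff (b : ℕ × List Wd) (M W : List Wd) :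
    (∃ D, AM b M W D) ↔ ∀ w ∈ W, ev (gen b) w ∈ Clo b M := by
  constructor
  · rintro ⟨D, h1, h2⟩ w hw
    obtain ⟨t, ht, rfl⟩ := h2 w hw
    exact (mem_iff b M _).2 ⟨_, _, h1 t ht⟩
  · intro h
    induction W with
    | nil => exact ⟨[], by simp, by simp⟩
    | cons w W ih =>
      obtain ⟨D, h1, h2⟩ := ih (fun w hw => h w (List.mem_cons_of_mem _ hw))
      obtain ⟨v, c, hc⟩ := (mem_iff b M w).1 (h w List.mem_cons_self)
      refine ⟨(w, v, c) :: D, ?_, ?_⟩
      · intro t ht
        rcases List.mem_cons.1 ht with rfl | ht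
        · exact hc
        · exact h1 t ht
      · intro w' hw'
        rcases List.mem_cons.1 hw' with rfl | hw'
        · exact ⟨_, List.mem_cons_self, rfl⟩
        · obtain ⟨t, ht, h⟩ := h2 w' hw'
          exact ⟨t, List.mem_cons_of_mem _ ht, h⟩

theorem AM_pr (b : ℕ × List Wd) : PrimrecPred fun x : (List Wd × List Wd) × List (Wd × Wd × Ct) =>
    AM b x.1.1 x.1.2 x.2 := by
  unfold AM
  refine PrimrecPred.and ?_ ?_
  · refine pp_ball Primrec.snd ?_
    refine chk_pr.comp (Primrec.pair (Primrec.const b) (Primrec.pair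
      (Primrec.list_append.comp (sub_pr.comp (Primrec.fst.comp (Primrec.fst.comp Primrec.fst))
        (Primrec.fst.comp (Primrec.snd.comp Primrec.snd)))
        (invRev_pr.comp (Primrec.fst.comp Primrec.snd)))
      (Primrec.snd.comp (Primrec.snd.comp Primrec.snd))))
  · refine pp_ball (Primrec.snd.comp Primrec.fst) ?_
    refine pp_bex (Primrec.snd.comp Primrec.fst) ?_
    exact pp_eq (Primrec.fst.comp Primrec.snd) (Primrec.snd.comp Primrec.fst)

theorem map_sub_pr (U : List Wd) : Primrec fun L : List Wd => L.map (sub U) :=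
  Primrec.list_map Primrec.id (sub_pr.comp (Primrec.const U) Primrec.snd)

theorem re_pos (b : ℕ × List Wd) (U V : List Wd) : REPred fun L : List Wd =>
    ∃ D, AM b (L.map (sub U)) V D := by
  refine re_exists (R := fun (L : List Wd) D => AM b (L.map (sub U)) V D) ?_
  exact (AM_pr b).comp (Primrec.pair (Primrec.pair ((map_sub_pr U).comp Primrec.fst)
    (Primrec.const V)) Primrec.snd)

theorem re_neg (b : ℕ × List Wd) (U : List Wd) : REPred fun L : List Wd =>
    ∃ x : Wd × List (Wd × Wd × Ct), AM b [x.1] (L.map (sub U)) x.2 := by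
  refine re_exists (R := fun (L : List Wd) (x : Wd × List (Wd × Wd × Ct)) =>
    AM b [x.1] (L.map (sub U)) x.2) ?_
  exact (AM_pr b).comp (Primrec.pair (Primrec.pair
    (Primrec.list_cons.comp (Primrec.fst.comp Primrec.snd) (Primrec.const []))
    ((map_sub_pr U).comp Primrec.fst)) (Primrec.snd.comp Primrec.snd))

theorem gens_map {b : ℕ × List Wd} {G : Type} [Group G] (e : PG b ≃* G) (f : ℕ → G)
    {U : List Wd} (hU : ∀ i, e (ev (gen b) (U.getD i [])) = f i) (L : List Wd) :
    gens f L = (Clo b (L.map (sub U))).map e.toMonoidHom := by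
  unfold gens Clo
  rw [MonoidHom.map_closure]
  congr 1
  ext g
  constructor
  · rintro ⟨w, hw, rfl⟩
    exact ⟨_, ⟨sub U w, List.mem_map_of_mem hw, rfl⟩, (value_eq e f hU w).symm⟩
  · rintro ⟨_, ⟨m, hm, rfl⟩, rfl⟩
    obtain ⟨w, hw, rfl⟩ := List.mem_map.1 hm
    exact ⟨w, hw, (value_eq e f hU w).symm⟩

theorem GEN3 : S_GEN3 := by
  intro hcod G _ _ h3 f hf
  obtain ⟨b, ⟨e⟩⟩ := hcod G
  obtain ⟨U, hU⟩ := words e f hf
  rw [ComputablePred.computable_iff_re_compl_re']
  constructor
  · refine (re_pos b U ((List.range b.1).map fun i => [(i, true)])).of_eq fun L => ?_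
    rw [AM_iff, gens_map e f hU]
    constructor
    · intro h
      have h1 : Clo b (L.map (sub U)) = ⊤ := by
        rw [eq_top_iff, ← PresentedGroup.closure_range_of, Subgroup.closure_le]
        rintro _ ⟨i, rfl⟩
        have h2 := h [(i.1, true)] (List.mem_map.2 ⟨i.1, List.mem_range.2 i.2, rfl⟩)
        rw [ev_true] at h2
        unfold gen at h2
        rw [dif_pos i.2] at h2
        exact h2
      rw [h1]
      exact Subgroup.map_top_of_surjective _ e.surjective
    · intro h w _
      have h1 : e (ev (gen b) w) ∈ (Clo b (L.map (sub U))).map e.toMonoidHom := by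
        rw [h]; trivial
      obtain ⟨y, hy, hy'⟩ := h1
      have : y = ev (gen b) w := e.injective hy'
      rwa [← this]
  · refine (re_neg b U).of_eq fun L => ?_
    have hz : ∀ u : Wd, Clo b [u] = Subgroup.zpowers (ev (gen b) u) := by
      intro u
      unfold Clo
      rw [Subgroup.zpowers_eq_closure]
      congr 1
      ext g
      simp
    constructor
    · rintro ⟨⟨u, D⟩, hD⟩ htop
      have h1 := (AM_iff b [u] (L.map (sub U))).1 ⟨D, hD⟩
      rw [hz] at h1
      apply h3.1
      rw [isCyclic_iff_exists_zpowers_eq_top]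
      refine ⟨e (ev (gen b) u), ?_⟩
      rw [eq_top_iff, ← htop]
      refine (Subgroup.closure_le _).2 ?_
      rintro g ⟨w, hw, rfl⟩
      obtain ⟨k, hk⟩ := Subgroup.mem_zpowers_iff.1 (h1 _ (List.mem_map_of_mem hw))
      rw [SetLike.mem_coe, value_eq e f hU, ← hk, map_zpow]
      exact Subgroup.zpow_mem_zpowers _ _
    · intro hne
      have hc := h3.2 _ hne
      obtain ⟨g₀, hg₀⟩ := hc.exists_generator
      obtain ⟨u, hu⟩ := gen_word b (e.symm g₀.1)
      have h1 : ∀ w ∈ L.map (sub U), ev (gen b) w ∈ Clo b [u] := by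
        intro m hm
        obtain ⟨w, hw, rfl⟩ := List.mem_map.1 hm
        rw [hz, hu]
        have h2 : value f w ∈ gens f L := Subgroup.subset_closure ⟨w, hw, rfl⟩
        obtain ⟨k, hk⟩ := Subgroup.mem_zpowers_iff.1 (hg₀ ⟨_, h2⟩)
        have h4 : (g₀ : G) ^ k = value f w := by
          have := congrArg Subtype.val hk
          simpa using this
        rw [value_eq e f hU] at h4
        have h5 : ev (gen b) (sub U w) = (e.symm g₀.1) ^ k := by
          rw [← map_zpow, h4, e.symm_apply_apply]
        rw [h5]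
        exact Subgroup.zpow_mem_zpowers _ _
      obtain ⟨D, hD⟩ := (AM_iff b [u] (L.map (sub U))).2 h1
      exact ⟨(u, D), hD⟩

end Pool.Agent.L0h91.MON
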