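import Pool.Agent.L0h38.MON.Stm

/-!
The membership problem in groups of type (4).
-/

set_option autoImplicit false
set_option linter.all false

namespace Pool.Agent.L0h91.MON

open Pool.Agent.Q223.IS Pool.Agent.L0h38.MON

theorem all_comp {β : Type*} [Primcodable β] {d : β → Bool} (hd : Computable d) :
    ∃ F : List β → Bool, Computable F ∧ ∀ l, F l = true ↔ ∀ b ∈ l, d b = true := by
  refine ⟨fun l => Nat.rec (motive := fun _ => Bool) true
      (fun y IH => IH && ((l[y]?).map d).getD true) l.length, ?_, ?_⟩
  · refine Computable.nat_rec (f := List.length) (g := fun _ => true)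
      (h := fun l z => z.2 && ((l[z.1]?).map d).getD true) Computable.list_length
      (Computable.const true) ?_
    exact Primrec.and.to_comp.comp (Computable.snd.comp Computable.snd)
      (Computable.option_getD (Computable.option_map (Computable.list_getElem?.comp Computable.fst
        (Computable.fst.comp Computable.snd)) (hd.comp Computable.snd).to₂)
        (Computable.const true))
  · intro l
    have key : ∀ n : ℕ, Nat.rec (motive := fun _ => Bool) true
        (fun y IH => IH && ((l[y]?).map d).getD true) n = true ↔
        ∀ y < n, ∀ b, l[y]? = some b → d b = true := by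
      intro n
      induction n with
      | zero => simp
      | succ n ih =>
        show (_ && ((l[n]?).map d).getD true) = true ↔ _
        rw [Bool.and_eq_true, ih]
        constructor
        · rintro ⟨h1, h2⟩ y hy b hb
          rcases Nat.lt_succ_iff_lt_or_eq.1 hy with h | rfl
          · exact h1 y h b hb
          · rw [hb] at h2
            simpa using h2
        · intro h
          refine ⟨fun y hy b hb => h y (Nat.lt_succ_of_lt hy) b hb, ?_⟩
          cases hl : l[n]? with
          | none => rfl
          | some b => simpa using h n (Nat.lt_succ_self n) b hl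
    refine (key l.length).trans ?_
    constructor
    · intro h b hb
      obtain ⟨y, hy⟩ := List.mem_iff_getElem?.1 hb
      have hy' : y < l.length := by
        by_contra hc
        rw [List.getElem?_eq_none (by omega)] at hy
        exact absurd hy (by simp)
      exact h y hy' b hy
    · intro h y _ b hb
      exact h b (List.mem_iff_getElem?.2 ⟨y, hb⟩)

theorem MEM4 : S_MEM4 := by
  intro G _ _ hinf h4 h3 hgen hwp f hf
  obtain ⟨c1, hc1, e1⟩ := ComputablePred.computable_iff.1 (hgen f hf)
  obtain ⟨c2, hc2, e2⟩ := ComputablePred.computable_iff.1 (hwp f hf)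
  obtain ⟨c3, hc3, e3⟩ := all_comp hc2
  have e1' : ∀ L, gens f L = ⊤ ↔ c1 L = true := fun L => iff_of_eq (congrFun e1 L)
  have e2' : ∀ w, value f w = 1 ↔ c2 w = true := fun w => iff_of_eq (congrFun e2 w)
  rw [ComputablePred.computable_iff]
  refine ⟨fun p => (c1 p.1 || c2 p.2) || (!(c3 p.1) && !(c1 (p.2 :: p.1))), ?_, ?_⟩
  · exact Primrec.or.to_comp.comp (Primrec.or.to_comp.comp (hc1.comp Computable.fst)
      (hc2.comp Computable.snd)) (Primrec.and.to_comp.comp
      (Primrec.not.to_comp.comp (hc3.comp Computable.fst))
      (Primrec.not.to_comp.comp (hc1.comp (Computable.list_cons.comp Computable.snd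
        Computable.fst))))
  · obtain ⟨p, hp, hH⟩ := h4
    funext x
    obtain ⟨L, w⟩ := x
    refine propext ?_
    simp only [Bool.or_eq_true, Bool.and_eq_true, Bool.not_eq_true', ← Bool.not_eq_true]
    rw [← e1', ← e2', ← e1', e3]
    simp only [← e2']
    constructor
    · intro h
      by_cases htop : gens f L = ⊤
      · exact Or.inl (Or.inl htop)
      by_cases h1 : value f w = 1
      · exact Or.inl (Or.inr h1)
      refine Or.inr ⟨fun hall => ?_, fun htop' => ?_⟩
      · have : gens f L ≤ ⊥ := by
          refine (Subgroup.closure_le _).2 ?_
          rintro g ⟨u, hu, rfl⟩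
          exact Subgroup.mem_bot.2 (hall u hu)
        exact h1 (Subgroup.mem_bot.1 (this h))
      · apply htop
        rw [eq_top_iff, ← htop']
        refine (Subgroup.closure_le _).2 ?_
        rintro g ⟨u, hu, rfl⟩
        rcases List.mem_cons.1 hu with rfl | hu
        · exact h
        · exact Subgroup.subset_closure ⟨u, hu, rfl⟩
    · rintro ((h | h) | ⟨h, h'⟩)
      · rw [h]; trivial
      · show value f w ∈ gens f L
        rw [h]; exact one_mem _
      · have hle : gens f L ≤ gens f (w :: L) := by
          refine (Subgroup.closure_le _).2 ?_
          rintro g ⟨u, hu, rfl⟩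
          exact Subgroup.subset_closure ⟨u, List.mem_cons_of_mem _ hu, rfl⟩
        have hbot : gens f L ≠ ⊥ := by
          intro hb
          apply h
          intro u hu
          have : value f u ∈ gens f L := Subgroup.subset_closure ⟨u, hu, rfl⟩
          rw [hb] at this
          exact Subgroup.mem_bot.1 this
        have hbot' : gens f (w :: L) ≠ ⊥ := fun hb => hbot (le_bot_iff.1 (hb ▸ hle))
        have htop : gens f L ≠ ⊤ := fun ht => h' (top_le_iff.1 (ht ▸ hle))
        have k1 := (hH _ hbot htop).2
        have k2 := (hH _ hbot' h').2
        have hfin : Finite (gens f (w :: L)) := Nat.finite_of_card_ne_zero (by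
          rw [k2]; exact hp.ne_zero)
        have heq : gens f L = gens f (w :: L) :=
          Subgroup.eq_of_le_of_card_ge hle (by rw [k1, k2])
        show value f w ∈ gens f L
        rw [heq]
        exact Subgroup.subset_closure ⟨w, List.mem_cons_self, rfl⟩

end Pool.Agent.L0h91.MON
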